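import Pool.Agent.Y282.RB.Stm2

/-!
# The pointwise inequality for `T ^ n` on the extremal angular class: elementary bounds
-/

set_option autoImplicit false

open Finset

namespace Pool.Agent.W2helper5.BP

open Pool.Agent.Y282.RB

/-! ### the weights -/

lemma kk_zero (σ : ℝ) : kk σ 0 = 1 / (σ * (1 - σ)) := by
  unfold kk
  simp

lemma kk_pos {σ : ℝ} (h0 : 0 < σ) (h1 : σ < 1) (j : ℕ) : 0 < kk σ j := by
  have : (0 : ℝ) ≤ j := Nat.cast_nonneg j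
  unfold kk
  apply div_pos
  · linarith
  · apply mul_pos <;> linarith

lemma kk_zero_ge {σ : ℝ} (h0 : 0 < σ) (h1 : σ < 1) : 1 / σ ≤ kk σ 0 := by
  rw [kk_zero]
  apply one_div_le_one_div_of_le
  · exact mul_pos h0 (by linarith)
  · nlinarith

lemma kk_le {σ : ℝ} (h0 : 0 < σ) (h1 : σ < 1) {j : ℕ} (hj : 1 ≤ j) : kk σ j ≤ 2 * (1 / (j : ℝ)) := by
  have h : (1 : ℝ) ≤ j := by exact_mod_cast hj
  unfold kk
  rw [mul_one_div, div_le_div_iff₀ (by apply mul_pos <;> linarith) (by linarith)]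
  nlinarith [mul_pos h0 (sub_pos.2 h1)]

lemma kk_le' {σ : ℝ} (h0 : 0 < σ) (h1 : σ < 1) {j : ℕ} (hj : 1 ≤ j) :
    kk σ j * ((j : ℝ) + 1) ≤ 3 := by
  have h : (1 : ℝ) ≤ j := by exact_mod_cast hj
  unfold kk
  rw [div_mul_eq_mul_div, div_le_iff₀ (by apply mul_pos <;> linarith)]
  nlinarith [mul_pos h0 (sub_pos.2 h1), mul_self_nonneg ((j : ℝ) - 1)]

lemma KK_split (σ : ℝ) {n : ℕ} (hn : 1 ≤ n) : KK σ n = kk σ 0 + ∑ j ∈ Ico 1 n, kk σ j := by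
  unfold KK
  rw [range_eq_Ico, sum_eq_sum_Ico_succ_bot (by omega)]

lemma KK_ge {σ : ℝ} (h0 : 0 < σ) (h1 : σ < 1) {n : ℕ} (hn : 1 ≤ n) : 1 / σ ≤ KK σ n := by
  rw [KK_split σ hn]
  have := kk_zero_ge h0 h1
  have h2 : 0 ≤ ∑ j ∈ Ico 1 n, kk σ j := sum_nonneg fun j _ => (kk_pos h0 h1 j).le
  linarith

/-! ### differences -/

lemma TT_nonneg (n : ℕ) (γ : ℕ → ℝ) : 0 ≤ TT n γ := by
  unfold TT
  exact sum_nonneg fun j _ => by positivity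

lemma sum_odd (j : ℕ) : ∑ i ∈ range j, (2 * (i : ℝ) + 1) = (j : ℝ) ^ 2 := by
  induction j with
  | zero => simp
  | succ j ih => rw [sum_range_succ, ih]; push_cast; ring

lemma dev_sq (n : ℕ) (γ : ℕ → ℝ) {j : ℕ} (hj : j ≤ n) : (γ 0 - γ j) ^ 2 ≤ (j : ℝ) ^ 2 * TT n γ := by
  have h1 : γ 0 - γ j = ∑ i ∈ range j, (γ i - γ (i + 1)) := (sum_range_sub' γ j).symm
  rw [h1]
  have h2 : (∑ i ∈ range j, (γ i - γ (i + 1))) ^ 2 ≤
      (∑ i ∈ range j, (2 * (i : ℝ) + 1)) *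
        ∑ i ∈ range j, (γ i - γ (i + 1)) ^ 2 / (2 * (i : ℝ) + 1) := by
    apply sum_sq_le_sum_mul_sum_of_sq_le_mul
    · intro i _; positivity
    · intro i _; positivity
    · intro i _
      apply le_of_eq
      field_simp
  rw [sum_odd] at h2
  refine h2.trans ?_
  apply mul_le_mul_of_nonneg_left _ (by positivity)
  unfold TT
  apply sum_le_sum_of_subset_of_nonneg
  · intro i hi
    rw [mem_range] at hi ⊢
    omega
  · intro i _ _; positivity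

lemma dev (n : ℕ) (γ : ℕ → ℝ) {j : ℕ} (hj : j ≤ n) : |γ 0 - γ j| ≤ (j : ℝ) * √(TT n γ) := by
  have h := dev_sq n γ hj
  have h1 : (j : ℝ) ^ 2 * TT n γ = ((j : ℝ) * √(TT n γ)) ^ 2 := by
    rw [mul_pow, Real.sq_sqrt (TT_nonneg n γ)]
  rw [h1] at h
  exact abs_le_of_sq_le_sq h (by positivity)

lemma th_mem {σ : ℝ} (h0 : 0 < σ) (h1 : σ < 1) (j : ℕ) : 0 ≤ th σ j ∧ th σ j ≤ 1 := by
  have : (0 : ℝ) ≤ j := Nat.cast_nonneg j
  unfold th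
  constructor
  · apply div_nonneg <;> linarith
  · rw [div_le_one (by linarith)]; linarith

/-- `|γ 0 - y_j| ≤ (j + 1) √T` -/
lemma dev_y {σ : ℝ} (h0 : 0 < σ) (h1 : σ < 1) (n : ℕ) (γ : ℕ → ℝ) {j : ℕ} (hj : j < n) :
    |γ 0 - yy σ γ j| ≤ ((j : ℝ) + 1) * √(TT n γ) := by
  obtain ⟨t0, t1⟩ := th_mem h0 h1 j
  have a := dev n γ (j := j) hj.le
  have b := dev n γ (j := j + 1) hj
  push_cast at b
  have hs := Real.sqrt_nonneg (TT n γ)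
  have e : γ 0 - yy σ γ j = th σ j * (γ 0 - γ j) + (1 - th σ j) * (γ 0 - γ (j + 1)) := by
    unfold yy; ring
  rw [e]
  calc |th σ j * (γ 0 - γ j) + (1 - th σ j) * (γ 0 - γ (j + 1))|
      ≤ |th σ j * (γ 0 - γ j)| + |(1 - th σ j) * (γ 0 - γ (j + 1))| := abs_add_le _ _
    _ = th σ j * |γ 0 - γ j| + (1 - th σ j) * |γ 0 - γ (j + 1)| := by
        rw [abs_mul, abs_mul, abs_of_nonneg t0, abs_of_nonneg (by linarith : 0 ≤ 1 - th σ j)]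
    _ ≤ th σ j * (((j : ℝ) + 1) * √(TT n γ)) + (1 - th σ j) * (((j : ℝ) + 1) * √(TT n γ)) := by
        apply add_le_add
        · apply mul_le_mul_of_nonneg_left _ t0
          nlinarith
        · exact mul_le_mul_of_nonneg_left b (by linarith)
    _ = _ := by ring

lemma yy_zero (σ : ℝ) (γ : ℕ → ℝ) : yy σ γ 0 = γ 0 - σ * (γ 0 - γ 1) := by
  unfold yy th
  norm_num
  ring

lemma term_zero {σ : ℝ} (h0 : 0 < σ) (h1 : σ < 1) (γ : ℕ → ℝ) :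
    kk σ 0 * (γ 0 ^ 2 - yy σ γ 0 ^ 2) =
      (2 * γ 0 * (γ 0 - γ 1) - σ * (γ 0 - γ 1) ^ 2) / (1 - σ) := by
  have h2 : (1 - σ) ≠ 0 := by linarith
  rw [kk_zero, yy_zero]
  field_simp
  ring

/-- the basic identity -/
lemma ident {σ : ℝ} (h0 : 0 < σ) (h1 : σ < 1) {n : ℕ} (hn : 1 ≤ n) (γ : ℕ → ℝ)
    (hL : Lam σ n γ = 1) :
    KK σ n * (γ 0 ^ 2 - 1) = (2 * γ 0 * (γ 0 - γ 1) - σ * (γ 0 - γ 1) ^ 2) / (1 - σ) +
      ∑ j ∈ Ico 1 n, kk σ j * (γ 0 ^ 2 - yy σ γ j ^ 2) := by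
  have hK : 0 < KK σ n := lt_of_lt_of_le (by positivity) (KK_ge h0 h1 hn)
  unfold Lam at hL
  rw [div_eq_one_iff_eq hK.ne'] at hL
  have h2 : KK σ n * (γ 0 ^ 2 - 1) = ∑ j ∈ range n, kk σ j * (γ 0 ^ 2 - yy σ γ j ^ 2) := by
    simp only [mul_sub, sum_sub_distrib, ← sum_mul]
    rw [hL]
    unfold KK
    ring
  rw [h2, range_eq_Ico, sum_eq_sum_Ico_succ_bot (by omega), term_zero h0 h1]

/-! ### first bounds -/

lemma term_up {σ : ℝ} (h0 : 0 < σ) (h1 : σ < 1) (n : ℕ) (γ : ℕ → ℝ) (hx : 0 ≤ γ 0) {j : ℕ}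
    (hj1 : 1 ≤ j) (hj : j < n) :
    kk σ j * (γ 0 ^ 2 - yy σ γ j ^ 2) ≤ 6 * γ 0 * √(TT n γ) := by
  have hk := kk_pos h0 h1 j
  have h3 := kk_le' h0 h1 hj1
  have hd := dev_y h0 h1 n γ hj
  have hs := Real.sqrt_nonneg (TT n γ)
  have e : γ 0 ^ 2 - yy σ γ j ^ 2 ≤ 2 * γ 0 * |γ 0 - yy σ γ j| := by
    nlinarith [le_abs_self (γ 0 - yy σ γ j), mul_nonneg hx (sub_nonneg.2 (le_abs_self (γ 0 - yy σ γ j))),
      sq_nonneg (γ 0 - yy σ γ j)]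
  calc kk σ j * (γ 0 ^ 2 - yy σ γ j ^ 2) ≤ kk σ j * (2 * γ 0 * |γ 0 - yy σ γ j|) :=
        mul_le_mul_of_nonneg_left e hk.le
    _ ≤ kk σ j * (2 * γ 0 * (((j : ℝ) + 1) * √(TT n γ))) := by
        apply mul_le_mul_of_nonneg_left _ hk.le
        exact mul_le_mul_of_nonneg_left hd (by linarith)
    _ = (kk σ j * ((j : ℝ) + 1)) * (2 * γ 0 * √(TT n γ)) := by ring
    _ ≤ 3 * (2 * γ 0 * √(TT n γ)) := mul_le_mul_of_nonneg_right h3 (by positivity)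
    _ = _ := by ring

lemma term_low {σ : ℝ} (h0 : 0 < σ) (h1 : σ < 1) (n : ℕ) (γ : ℕ → ℝ) (hx : 0 ≤ γ 0) {j : ℕ}
    (hj1 : 1 ≤ j) (hj : j < n) :
    -(kk σ j * (γ 0 ^ 2 - yy σ γ j ^ 2)) ≤ 6 * γ 0 * √(TT n γ) + 3 * ((j : ℝ) + 1) * TT n γ := by
  have hk := kk_pos h0 h1 j
  have h3 := kk_le' h0 h1 hj1
  have hd := dev_y h0 h1 n γ hj
  have hs := Real.sqrt_nonneg (TT n γ)
  have hj0 : (0 : ℝ) ≤ j := Nat.cast_nonneg j
  have hd2 : (γ 0 - yy σ γ j) ^ 2 ≤ ((j : ℝ) + 1) ^ 2 * TT n γ := by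
    have := pow_le_pow_left₀ (abs_nonneg _) hd 2
    rwa [sq_abs, mul_pow, Real.sq_sqrt (TT_nonneg n γ)] at this
  have e : -(γ 0 ^ 2 - yy σ γ j ^ 2) ≤ 2 * γ 0 * |γ 0 - yy σ γ j| + (γ 0 - yy σ γ j) ^ 2 := by
    nlinarith [mul_nonneg hx (by linarith [neg_abs_le (γ 0 - yy σ γ j)] :
      0 ≤ |γ 0 - yy σ γ j| + (γ 0 - yy σ γ j))]
  calc -(kk σ j * (γ 0 ^ 2 - yy σ γ j ^ 2)) = kk σ j * (-(γ 0 ^ 2 - yy σ γ j ^ 2)) := by ring
    _ ≤ kk σ j * (2 * γ 0 * |γ 0 - yy σ γ j| + (γ 0 - yy σ γ j) ^ 2) :=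
        mul_le_mul_of_nonneg_left e hk.le
    _ ≤ kk σ j * (2 * γ 0 * (((j : ℝ) + 1) * √(TT n γ)) + ((j : ℝ) + 1) ^ 2 * TT n γ) := by
        apply mul_le_mul_of_nonneg_left _ hk.le
        exact add_le_add (mul_le_mul_of_nonneg_left hd (by linarith)) hd2
    _ = (kk σ j * ((j : ℝ) + 1)) * (2 * γ 0 * √(TT n γ) + ((j : ℝ) + 1) * TT n γ) := by ring
    _ ≤ 3 * (2 * γ 0 * √(TT n γ) + ((j : ℝ) + 1) * TT n γ) := by
        apply mul_le_mul_of_nonneg_right h3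
        have := TT_nonneg n γ
        positivity
    _ = _ := by ring

lemma sum_three {n : ℕ} (hn : 1 ≤ n) : (∑ j ∈ Ico 1 n, 3 * ((j : ℝ) + 1)) + 1 ≤ 2 * (n : ℝ) ^ 2 := by
  induction n, hn using Nat.le_induction with
  | base => simp
  | succ m hm ih =>
    rw [sum_Ico_succ_top hm]
    have : (1 : ℝ) ≤ m := by exact_mod_cast hm
    push_cast
    nlinarith

lemma d_one {n : ℕ} (hn : 1 ≤ n) (γ : ℕ → ℝ) : |γ 0 - γ 1| ≤ √(TT n γ) := by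
  have := dev n γ (j := 1) hn
  simpa using this

/-- upper bound -/
lemma up1 {σ : ℝ} (h0 : 0 < σ) (h1 : σ ≤ 1 / 200) {n : ℕ} (hn : 1 ≤ n) (γ : ℕ → ℝ)
    (hL : Lam σ n γ = 1) (hx : 0 ≤ γ 0) :
    KK σ n * (γ 0 ^ 2 - 1) ≤ 6 * γ 0 * (n * √(TT n γ)) := by
  have hσ : σ < 1 := by linarith
  rw [ident h0 hσ hn γ hL]
  have hs := Real.sqrt_nonneg (TT n γ)
  have hd := d_one hn γ
  have e0 : (2 * γ 0 * (γ 0 - γ 1) - σ * (γ 0 - γ 1) ^ 2) / (1 - σ) ≤ 6 * γ 0 * √(TT n γ) := by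
    rw [div_le_iff₀ (by linarith)]
    have a : γ 0 * (γ 0 - γ 1) ≤ γ 0 * √(TT n γ) :=
      mul_le_mul_of_nonneg_left ((le_abs_self _).trans hd) hx
    have b : 0 ≤ σ * (γ 0 - γ 1) ^ 2 := by positivity
    have c : 0 ≤ γ 0 * √(TT n γ) := by positivity
    nlinarith
  have e1 : ∑ j ∈ Ico 1 n, kk σ j * (γ 0 ^ 2 - yy σ γ j ^ 2) ≤ ((n : ℝ) - 1) * (6 * γ 0 * √(TT n γ)) := by
    calc _ ≤ ∑ j ∈ Ico 1 n, 6 * γ 0 * √(TT n γ) := by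
          apply sum_le_sum
          intro j hj
          rw [mem_Ico] at hj
          exact term_up h0 hσ n γ hx hj.1 hj.2
      _ = _ := by
          rw [sum_const, Nat.card_Ico, nsmul_eq_mul, Nat.cast_sub hn]
          simp
  have e2 : 6 * γ 0 * (n * √(TT n γ)) = 6 * γ 0 * √(TT n γ) + ((n : ℝ) - 1) * (6 * γ 0 * √(TT n γ)) := by
    ring
  rw [e2]
  exact add_le_add e0 e1

/-- lower bound -/
lemma low1 {σ : ℝ} (h0 : 0 < σ) (h1 : σ ≤ 1 / 200) {n : ℕ} (hn : 1 ≤ n) (γ : ℕ → ℝ)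
    (hL : Lam σ n γ = 1) (hx : 0 ≤ γ 0) :
    KK σ n * (1 - γ 0 ^ 2) ≤ 6 * γ 0 * (n * √(TT n γ)) + 2 * (n : ℝ) ^ 2 * TT n γ := by
  have hσ : σ < 1 := by linarith
  have e : KK σ n * (1 - γ 0 ^ 2) = -(KK σ n * (γ 0 ^ 2 - 1)) := by ring
  rw [e, ident h0 hσ hn γ hL]
  have hs := Real.sqrt_nonneg (TT n γ)
  have hT := TT_nonneg n γ
  have hd := d_one hn γ
  have e0 : -((2 * γ 0 * (γ 0 - γ 1) - σ * (γ 0 - γ 1) ^ 2) / (1 - σ)) ≤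
      6 * γ 0 * √(TT n γ) + 1 * TT n γ := by
    rw [← neg_div, div_le_iff₀ (by linarith)]
    have a : -(γ 0 * (γ 0 - γ 1)) ≤ γ 0 * √(TT n γ) := by
      have := mul_le_mul_of_nonneg_left ((neg_le_abs _).trans hd) hx
      linarith
    have b : (γ 0 - γ 1) ^ 2 ≤ TT n γ := by
      have := dev_sq n γ (j := 1) hn
      simpa using this
    have c : 0 ≤ γ 0 * √(TT n γ) := by positivity
    nlinarith [mul_le_mul_of_nonneg_left b h0.le]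
  have e1 : -∑ j ∈ Ico 1 n, kk σ j * (γ 0 ^ 2 - yy σ γ j ^ 2) ≤
      ((n : ℝ) - 1) * (6 * γ 0 * √(TT n γ)) + (∑ j ∈ Ico 1 n, 3 * ((j : ℝ) + 1)) * TT n γ := by
    calc _ = ∑ j ∈ Ico 1 n, -(kk σ j * (γ 0 ^ 2 - yy σ γ j ^ 2)) := by rw [sum_neg_distrib]
      _ ≤ ∑ j ∈ Ico 1 n, (6 * γ 0 * √(TT n γ) + 3 * ((j : ℝ) + 1) * TT n γ) := by
          apply sum_le_sum
          intro j hj
          rw [mem_Ico] at hj
          exact term_low h0 hσ n γ hx hj.1 hj.2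
      _ = _ := by
          rw [sum_add_distrib, sum_const, Nat.card_Ico, nsmul_eq_mul, Nat.cast_sub hn, sum_mul]
          simp
  have e2 := mul_le_mul_of_nonneg_right (sum_three hn) hT
  rw [neg_add]
  have e3 := add_le_add e0 e1
  refine e3.trans ?_
  nlinarith

end Pool.Agent.W2helper5.BP
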