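import Pool.Agent.W2helper5.BP.A

/-!
# The pointwise inequality for `T ^ n` on the extremal angular class: the largest value of `γ 0`
-/

set_option autoImplicit false

open Finset

namespace Pool.Agent.W2helper5.BP

open Pool.Agent.Y282.RB

/-- `ω_j = ∏_{1 ≤ i < j} (i + σ) / (i + 1 - σ)` -/
noncomputable def om (σ : ℝ) (j : ℕ) : ℝ := ∏ i ∈ Ico 1 j, (((i : ℝ) + σ) / ((i : ℝ) + 1 - σ))

/-- the partial harmonic sum -/
noncomputable def Hn (n : ℕ) : ℝ := ∑ j ∈ Ico 1 n, 1 / (j : ℝ)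

lemma om_one (σ : ℝ) : om σ 1 = 1 := by simp [om]

lemma om_succ (σ : ℝ) {j : ℕ} (hj : 1 ≤ j) :
    om σ (j + 1) = om σ j * (((j : ℝ) + σ) / ((j : ℝ) + 1 - σ)) := by
  unfold om
  rw [prod_Ico_succ_top hj]

lemma om_pos {σ : ℝ} (h0 : 0 < σ) (h1 : σ < 1) (j : ℕ) : 0 < om σ j := by
  apply prod_pos
  intro i _
  have : (0 : ℝ) ≤ i := Nat.cast_nonneg i
  apply div_pos <;> linarith

lemma om_le_one {σ : ℝ} (h0 : 0 < σ) (h1 : σ ≤ 1 / 2) (j : ℕ) : om σ j ≤ 1 := by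
  apply prod_le_one
  · intro i _
    have : (0 : ℝ) ≤ i := Nat.cast_nonneg i
    apply div_nonneg <;> linarith
  · intro i _
    have : (0 : ℝ) ≤ i := Nat.cast_nonneg i
    rw [div_le_one (by linarith)]
    linarith

lemma om_bound {σ : ℝ} (h0 : 0 < σ) (n : ℕ) (h1 : σ * (200 * n) ≤ 1) {j : ℕ} (hj : 1 ≤ j) (hjn : j ≤ n) :
    (j : ℝ) * om σ j ≤ 1 + 4 * σ * ((j : ℝ) - 1) := by
  induction j, hj using Nat.le_induction with
  | base => simp [om_one]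
  | succ j hj ih =>
    have ih := ih (by omega)
    have hj1 : (1 : ℝ) ≤ j := by exact_mod_cast hj
    have hjn' : (j : ℝ) + 1 ≤ n := by exact_mod_cast hjn
    have hn1 : (1 : ℝ) ≤ n := by linarith
    have hσ : σ ≤ 1 / 200 := by nlinarith
    have hσj : σ * (200 * (j : ℝ)) ≤ 1 := by nlinarith
    rw [om_succ σ hj]
    have hden : 0 < (j : ℝ) + 1 - σ := by linarith
    have hf : ((j : ℝ) + 1) * (((j : ℝ) + σ) / ((j : ℝ) + 1 - σ)) ≤ (1 + 3 * σ) * j := by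
      rw [mul_div_assoc', div_le_iff₀ hden]
      nlinarith [mul_nonneg h0.le (sub_nonneg.2 hj1), mul_nonneg h0.le (mul_nonneg (by linarith : (0 : ℝ) ≤ j) (sub_nonneg.2 hj1)), mul_nonneg h0.le h0.le]
    have hom := om_pos h0 (by linarith : σ < 1) j
    push_cast
    calc ((j : ℝ) + 1) * (om σ j * (((j : ℝ) + σ) / ((j : ℝ) + 1 - σ)))
        = om σ j * (((j : ℝ) + 1) * (((j : ℝ) + σ) / ((j : ℝ) + 1 - σ))) := by ring
      _ ≤ om σ j * ((1 + 3 * σ) * j) := mul_le_mul_of_nonneg_left hf hom.le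
      _ = (j * om σ j) * (1 + 3 * σ) := by ring
      _ ≤ (1 + 4 * σ * ((j : ℝ) - 1)) * (1 + 3 * σ) := mul_le_mul_of_nonneg_right ih (by linarith)
      _ ≤ _ := by nlinarith [mul_nonneg h0.le h0.le]

/-- the chain of estimates for `γ 1` -/
lemma chain {σ : ℝ} (h0 : 0 < σ) (h1 : σ ≤ 1 / 2) (γ : ℕ → ℝ) {n : ℕ} (hn : 1 ≤ n) :
    |γ 1| ≤ om σ n * |γ n| + ∑ j ∈ Ico 1 n, om σ j * |yy σ γ j| / th σ j := by
  induction n, hn using Nat.le_induction with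
  | base => simp [om_one]
  | succ n hn ih =>
    rw [sum_Ico_succ_top hn]
    refine ih.trans ?_
    have hn1 : (1 : ℝ) ≤ n := by exact_mod_cast hn
    have hth : 0 < th σ n := by
      unfold th
      apply div_pos <;> linarith
    have hom := om_pos h0 (by linarith : σ < 1) n
    have e1 : om σ (n + 1) = om σ n * ((1 - th σ n) / th σ n) := by
      rw [om_succ σ hn]
      congr 1
      unfold th
      have : (2 * (n : ℝ) + 1) ≠ 0 := by positivity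
      have h2 : ((n : ℝ) + 1 - σ) ≠ 0 := by
        have : (0 : ℝ) < (n : ℝ) + 1 - σ := by linarith
        exact this.ne'
      field_simp
      ring
    have t1 := (th_mem h0 (by linarith : σ < 1) n).2
    have e2 : |γ n| ≤ |yy σ γ n| / th σ n + (1 - th σ n) / th σ n * |γ (n + 1)| := by
      rw [div_mul_eq_mul_div, ← add_div, le_div_iff₀ hth]
      have e3 : γ n * th σ n = yy σ γ n - (1 - th σ n) * γ (n + 1) := by
        unfold yy; ring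
      calc |γ n| * th σ n = |γ n * th σ n| := by rw [abs_mul, abs_of_pos hth]
        _ = |yy σ γ n - (1 - th σ n) * γ (n + 1)| := by rw [e3]
        _ ≤ |yy σ γ n| + |(1 - th σ n) * γ (n + 1)| := abs_sub _ _
        _ = _ := by rw [abs_mul, abs_of_nonneg (by linarith : 0 ≤ 1 - th σ n)]
    have e4 := mul_le_mul_of_nonneg_left e2 hom.le
    rw [e1]
    have e5 : om σ n * (|yy σ γ n| / th σ n + (1 - th σ n) / th σ n * |γ (n + 1)|) =
        om σ n * ((1 - th σ n) / th σ n) * |γ (n + 1)| + om σ n * |yy σ γ n| / th σ n := by ring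
    rw [e5] at e4
    linarith

/-- the weight of one step -/
lemma step_weight {σ : ℝ} (h0 : 0 < σ) (n : ℕ) (h1 : σ * (200 * n) ≤ 1) {j : ℕ} (hj : 1 ≤ j)
    (hjn : j < n) : (om σ j / th σ j) ^ 2 / kk σ j ≤ (1 + 4 * σ * n) ^ 2 * (2 * (1 / (j : ℝ))) := by
  have hj1 : (1 : ℝ) ≤ j := by exact_mod_cast hj
  have hjn' : (j : ℝ) + 1 ≤ n := by exact_mod_cast hjn
  have hn1 : (1 : ℝ) ≤ n := by linarith
  have hσ : σ ≤ 1 / 200 := by nlinarith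
  have hom := om_pos h0 (by linarith : σ < 1) j
  have hb := om_bound h0 n h1 hj hjn.le
  have hb2 : (j : ℝ) * om σ j ≤ 1 + 4 * σ * n := by nlinarith
  have hb3 : ((j : ℝ) * om σ j) ^ 2 ≤ (1 + 4 * σ * n) ^ 2 := pow_le_pow_left₀ (by positivity) hb2 2
  have hden : 0 < (j : ℝ) + 1 - σ := by linarith
  have e : (om σ j / th σ j) ^ 2 / kk σ j = om σ j ^ 2 * ((2 * j + 1) * (j + σ) / (j + 1 - σ)) := by
    unfold th kk
    have a1 : (2 * (j : ℝ) + 1) ≠ 0 := by positivity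
    have a2 : ((j : ℝ) + 1 - σ) ≠ 0 := hden.ne'
    have a3 : ((j : ℝ) + σ) ≠ 0 := by positivity
    field_simp
  rw [e]
  have f : (2 * (j : ℝ) + 1) * (j + σ) / (j + 1 - σ) ≤ 2 * j := by
    rw [div_le_iff₀ hden]
    nlinarith
  calc om σ j ^ 2 * ((2 * j + 1) * (j + σ) / (j + 1 - σ)) ≤ om σ j ^ 2 * (2 * j) :=
        mul_le_mul_of_nonneg_left f (by positivity)
    _ = (j * om σ j) ^ 2 * (2 * (1 / (j : ℝ))) := by
        field_simp
    _ ≤ _ := mul_le_mul_of_nonneg_right hb3 (by positivity)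

/-- upper bound for `K (x ^ 2 - 1)` when `|γ n| ≤ x` -/
lemma up2 {σ : ℝ} (h0 : 0 < σ) {n : ℕ} (hn : 1 ≤ n) (h1 : σ * (200 * n) ≤ 1) (γ : ℕ → ℝ)
    (hL : Lam σ n γ = 1) (hx : 0 ≤ γ 0) (hγ : |γ n| ≤ γ 0) :
    KK σ n * (γ 0 ^ 2 - 1) ≤ γ 0 ^ 2 * (4 / (1 - σ) +
      (1 / (1 - σ)) ^ 2 * ((1 + 4 * σ * n) ^ 2 * (2 * Hn n)) + 2 * Hn n) := by
  have hn1 : (1 : ℝ) ≤ n := by exact_mod_cast hn
  have hσ' : σ ≤ 1 / 200 := by nlinarith
  have hσ : σ < 1 := by linarith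
  have hs1 : 0 < 1 - σ := by linarith
  rw [ident h0 hσ hn γ hL]
  obtain ⟨c, hc⟩ : ∃ c, c = γ 0 / (1 - σ) := ⟨_, rfl⟩
  have hc0 : 0 ≤ c := by rw [hc]; positivity
  -- the first term
  have e0 : (2 * γ 0 * (γ 0 - γ 1) - σ * (γ 0 - γ 1) ^ 2) / (1 - σ) ≤ 2 * c * (γ 0 + |γ 1|) := by
    have : 2 * c * (γ 0 + |γ 1|) = 2 * γ 0 * (γ 0 + |γ 1|) / (1 - σ) := by
      rw [hc]; ring
    rw [this]
    apply div_le_div_of_nonneg_right _ hs1.le
    have a : -γ 1 ≤ |γ 1| := neg_le_abs _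
    have b : 0 ≤ σ * (γ 0 - γ 1) ^ 2 := by positivity
    nlinarith
  have hch := chain h0 (by linarith) γ hn
  have hω : om σ n * |γ n| ≤ γ 0 := by
    have := om_le_one h0 (by linarith : σ ≤ 1 / 2) n
    have h2 := om_pos h0 hσ n
    calc om σ n * |γ n| ≤ 1 * |γ n| := mul_le_mul_of_nonneg_right this (abs_nonneg _)
      _ ≤ γ 0 := by rw [one_mul]; exact hγ
  have e1 : 2 * c * (γ 0 + |γ 1|) ≤ 4 * c * γ 0 +
      ∑ j ∈ Ico 1 n, 2 * c * (om σ j * |yy σ γ j| / th σ j) := by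
    rw [← mul_sum]
    have : |γ 1| ≤ γ 0 + ∑ j ∈ Ico 1 n, om σ j * |yy σ γ j| / th σ j := by linarith
    nlinarith
  -- the other terms
  have e2 : ∀ j ∈ Ico 1 n, 2 * c * (om σ j * |yy σ γ j| / th σ j) +
      kk σ j * (γ 0 ^ 2 - yy σ γ j ^ 2) ≤
      c ^ 2 * ((1 + 4 * σ * n) ^ 2 * (2 * (1 / (j : ℝ)))) + γ 0 ^ 2 * (2 * (1 / (j : ℝ))) := by
    intro j hj
    rw [mem_Ico] at hj
    have hk := kk_pos h0 hσ j
    have hw := step_weight h0 n h1 hj.1 hj.2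
    have hkl := kk_le h0 hσ hj.1
    have a : 2 * c * (om σ j * |yy σ γ j| / th σ j) ≤
        kk σ j * yy σ γ j ^ 2 + c ^ 2 * ((om σ j / th σ j) ^ 2 / kk σ j) := by
      have h5 : 2 * c * (om σ j * |yy σ γ j| / th σ j) = 2 * (|yy σ γ j|) * (c * (om σ j / th σ j)) := by
        ring
      rw [h5, ← sq_abs (yy σ γ j)]
      have h6 : c ^ 2 * ((om σ j / th σ j) ^ 2 / kk σ j) = (c * (om σ j / th σ j)) ^ 2 / kk σ j := by
        ring
      rw [h6]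
      generalize c * (om σ j / th σ j) = B
      generalize |yy σ γ j| = A
      have h7 : kk σ j * A ^ 2 + B ^ 2 / kk σ j - 2 * A * B = (kk σ j * A - B) ^ 2 / kk σ j := by
        field_simp
        ring
      have h8 : 0 ≤ (kk σ j * A - B) ^ 2 / kk σ j := by positivity
      linarith
    have b : c ^ 2 * ((om σ j / th σ j) ^ 2 / kk σ j) ≤
        c ^ 2 * ((1 + 4 * σ * n) ^ 2 * (2 * (1 / (j : ℝ)))) :=
      mul_le_mul_of_nonneg_left hw (by positivity)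
    have d : kk σ j * γ 0 ^ 2 ≤ γ 0 ^ 2 * (2 * (1 / (j : ℝ))) := by
      rw [mul_comm]
      exact mul_le_mul_of_nonneg_left hkl (by positivity)
    nlinarith
  have e3 := sum_le_sum e2
  rw [sum_add_distrib, sum_add_distrib] at e3
  have e4 : ∑ j ∈ Ico 1 n, c ^ 2 * ((1 + 4 * σ * n) ^ 2 * (2 * (1 / (j : ℝ)))) =
      c ^ 2 * ((1 + 4 * σ * n) ^ 2 * (2 * Hn n)) := by
    unfold Hn
    rw [mul_sum, mul_sum, mul_sum]
  have e5 : ∑ j ∈ Ico 1 n, γ 0 ^ 2 * (2 * (1 / (j : ℝ))) = γ 0 ^ 2 * (2 * Hn n) := by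
    unfold Hn
    rw [mul_sum, mul_sum]
  rw [e4, e5] at e3
  have e6 : c ^ 2 = γ 0 ^ 2 * (1 / (1 - σ)) ^ 2 := by rw [hc]; ring
  have e7 : 4 * c * γ 0 = γ 0 ^ 2 * (4 / (1 - σ)) := by rw [hc]; ring
  rw [e6] at e3
  calc _ ≤ (4 * c * γ 0 + ∑ j ∈ Ico 1 n, 2 * c * (om σ j * |yy σ γ j| / th σ j)) +
        ∑ j ∈ Ico 1 n, kk σ j * (γ 0 ^ 2 - yy σ γ j ^ 2) := by linarith
    _ ≤ 4 * c * γ 0 + (γ 0 ^ 2 * (1 / (1 - σ)) ^ 2 * ((1 + 4 * σ * n) ^ 2 * (2 * Hn n)) +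
        γ 0 ^ 2 * (2 * Hn n)) := by linarith
    _ = _ := by rw [e7]; ring

lemma Hn_nonneg (n : ℕ) : 0 ≤ Hn n := sum_nonneg fun j _ => by positivity

lemma Hn_le {n : ℕ} (hn : 1 ≤ n) : Hn n ≤ (n : ℝ) - 1 := by
  unfold Hn
  calc ∑ j ∈ Ico 1 n, 1 / (j : ℝ) ≤ ∑ _j ∈ Ico 1 n, (1 : ℝ) := by
        apply sum_le_sum
        intro j hj
        rw [mem_Ico] at hj
        have : (1 : ℝ) ≤ j := by exact_mod_cast hj.1
        rw [div_le_one (by linarith)]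
        exact this
    _ = (n : ℝ) - 1 := by
        rw [sum_const, Nat.card_Ico, nsmul_eq_mul, Nat.cast_sub hn]
        simp

/-- the constant -/
lemma M_le {σ : ℝ} (h0 : 0 < σ) {n : ℕ} (hn : 1 ≤ n) (h1 : σ * (200 * (n : ℝ) ^ 2) ≤ 1) :
    4 / (1 - σ) + (1 / (1 - σ)) ^ 2 * ((1 + 4 * σ * n) ^ 2 * (2 * Hn n)) + 2 * Hn n
      ≤ 4 * Hn n + 21 / 5 := by
  have hn1 : (1 : ℝ) ≤ n := by exact_mod_cast hn
  have hnn : (n : ℝ) ≤ (n : ℝ) ^ 2 := by nlinarith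
  have hσn : σ * n ≤ 1 / 200 := by nlinarith
  have hσn2 : σ * (n : ℝ) ^ 2 ≤ 1 / 200 := by linarith
  have hσ' : σ ≤ 1 / 200 := by nlinarith
  have hσle : σ ≤ σ * n := by nlinarith
  have hs1 : 0 < 1 - σ := by linarith
  have hH := Hn_le hn
  have hH0 := Hn_nonneg n
  have a1 : 1 / (1 - σ) ≤ 1 + 2 * σ := by
    rw [div_le_iff₀ hs1]; nlinarith
  have a2 : 4 / (1 - σ) ≤ 4 + 8 * σ := by
    have : 4 / (1 - σ) = 4 * (1 / (1 - σ)) := by ring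
    rw [this]; linarith
  have a3 : (1 / (1 - σ)) ^ 2 ≤ (1 + 2 * σ) ^ 2 :=
    pow_le_pow_left₀ (by positivity) a1 2
  have a4 : (1 + 2 * σ) ^ 2 * (1 + 4 * σ * n) ^ 2 ≤ 1 + 15 * (σ * n) := by
    have b0 : 0 ≤ σ * n := by positivity
    have b1 : (1 + 2 * σ) ^ 2 ≤ 1 + 5 * (σ * n) := by nlinarith
    have b2 : (1 + 4 * σ * n) ^ 2 ≤ 1 + 9 * (σ * n) := by nlinarith
    calc (1 + 2 * σ) ^ 2 * (1 + 4 * σ * n) ^ 2 ≤ (1 + 5 * (σ * n)) * (1 + 9 * (σ * n)) :=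
          mul_le_mul b1 b2 (by positivity) (by positivity)
      _ ≤ _ := by nlinarith
  have a5 : (1 / (1 - σ)) ^ 2 * ((1 + 4 * σ * n) ^ 2 * (2 * Hn n)) ≤ 2 * Hn n + 15 / 100 := by
    calc (1 / (1 - σ)) ^ 2 * ((1 + 4 * σ * n) ^ 2 * (2 * Hn n))
        ≤ (1 + 2 * σ) ^ 2 * ((1 + 4 * σ * n) ^ 2 * (2 * Hn n)) :=
          mul_le_mul_of_nonneg_right a3 (by positivity)
      _ = ((1 + 2 * σ) ^ 2 * (1 + 4 * σ * n) ^ 2) * (2 * Hn n) := by ring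
      _ ≤ (1 + 15 * (σ * n)) * (2 * Hn n) := mul_le_mul_of_nonneg_right a4 (by linarith)
      _ = 2 * Hn n + 30 * (σ * n) * Hn n := by ring
      _ ≤ 2 * Hn n + 30 * (σ * n) * n := by
          have : 0 ≤ 30 * (σ * n) := by positivity
          nlinarith
      _ ≤ _ := by nlinarith
  linarith

/-- the sharp bound for `γ 0` -/
lemma umax {σ : ℝ} (h0 : 0 < σ) {n : ℕ} (hn : 1 ≤ n) (h1 : σ * (200 * (n : ℝ) ^ 2) ≤ 1) (γ : ℕ → ℝ)
    (hL : Lam σ n γ = 1) (hx : 0 ≤ γ 0) (hγ : |γ n| ≤ γ 0) :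
    γ 0 ^ 2 - 1 ≤ 43 / 1000 / n ∧ γ 0 ^ 2 - 1 ≤ 2 * σ * (2 * Hn n + 23 / 10) := by
  have hn1 : (1 : ℝ) ≤ n := by exact_mod_cast hn
  have hnn : (n : ℝ) ≤ (n : ℝ) ^ 2 := by nlinarith
  have hσn : σ * (200 * n) ≤ 1 := by nlinarith
  have hσ' : σ ≤ 1 / 200 := by nlinarith
  have hu := up2 h0 hn hσn γ hL hx hγ
  have hM := M_le h0 hn h1
  obtain ⟨M, hMd⟩ : ∃ M, M = 4 * Hn n + 21 / 5 := ⟨_, rfl⟩
  rw [← hMd] at hM
  have hH := Hn_le hn
  have hH0 := Hn_nonneg n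
  have hM8 : M ≤ 41 / 5 * n := by rw [hMd]; nlinarith
  have hM0 : 0 ≤ M := by rw [hMd]; linarith
  have hK := KK_ge h0 (by linarith : σ < 1) hn
  have hb0 : 0 ≤ γ 0 ^ 2 := by positivity
  have hu2 : KK σ n * (γ 0 ^ 2 - 1) ≤ γ 0 ^ 2 * M :=
    hu.trans (mul_le_mul_of_nonneg_left hM hb0)
  -- `b - 1 ≤ σ b M`
  have h3 : γ 0 ^ 2 - 1 ≤ σ * (γ 0 ^ 2 * M) := by
    rcases le_total (γ 0 ^ 2) 1 with h | h
    · have : 0 ≤ σ * (γ 0 ^ 2 * M) := by positivity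
      linarith
    · have h4 : 1 / σ * (γ 0 ^ 2 - 1) ≤ γ 0 ^ 2 * M :=
        (mul_le_mul_of_nonneg_right hK (by linarith)).trans hu2
      have h5 := mul_le_mul_of_nonneg_left h4 h0.le
      rw [← mul_assoc, mul_one_div_cancel h0.ne', one_mul] at h5
      exact h5
  have h6 : σ * M ≤ 41 / 1000 / n := by
    rw [le_div_iff₀ (by linarith)]
    nlinarith [mul_le_mul_of_nonneg_left hM8 h0.le]
  have h6' : σ * M ≤ 41 / 1000 := by
    refine h6.trans ?_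
    rw [div_le_iff₀ (by linarith)]; nlinarith
  have h7 : γ 0 ^ 2 ≤ (1.0428 : ℝ) := by nlinarith
  have h8 : γ 0 ^ 2 - 1 ≤ 43 / 1000 / n := by
    calc γ 0 ^ 2 - 1 ≤ γ 0 ^ 2 * (σ * M) := by linarith
      _ ≤ (1.0428 : ℝ) * (41 / 1000 / (n : ℝ)) := by
          apply mul_le_mul h7 h6 (by positivity) (by norm_num)
      _ ≤ _ := by
          rw [mul_div_assoc', div_le_div_iff_of_pos_right (by linarith)]
          norm_num
  refine ⟨h8, ?_⟩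
  -- second bound
  have h9 : γ 0 ^ 2 * M ≤ M + 36 / 100 := by
    have : (γ 0 ^ 2 - 1) * M ≤ 43 / 1000 / n * (41 / 5 * n) := by
      rcases le_total (γ 0 ^ 2) 1 with h | h
      · have h10 : (γ 0 ^ 2 - 1) * M ≤ 0 := mul_nonpos_of_nonpos_of_nonneg (by linarith) hM0
        have h11 : 0 ≤ 43 / 1000 / (n : ℝ) * (41 / 5 * n) := by positivity
        linarith
      · exact mul_le_mul h8 hM8 hM0 (by positivity)
    have h12 : 43 / 1000 / (n : ℝ) * (41 / 5 * n) = 43 / 1000 * (41 / 5) := by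
      field_simp
    rw [h12] at this
    nlinarith
  have h13 : σ * (γ 0 ^ 2 * M) ≤ σ * (M + 36 / 100) := mul_le_mul_of_nonneg_left h9 h0.le
  have h14 : M + 36 / 100 ≤ 2 * (2 * Hn n + 23 / 10) := by rw [hMd]; linarith
  calc γ 0 ^ 2 - 1 ≤ σ * (M + 36 / 100) := h3.trans h13
    _ ≤ σ * (2 * (2 * Hn n + 23 / 10)) := mul_le_mul_of_nonneg_left h14 h0.le
    _ = _ := by ring

end Pool.Agent.W2helper5.BP
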