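import Pool.Agent.W2helper5.BP.B
import Pool.Agent.Y282.RB.C0
import Pool.Agent.Y282.RB.E0

/-!
# The pointwise inequality `Star n p` for all `n ≥ 1` and `p ≥ 200 n ^ 2`
-/

set_option autoImplicit false

open Finset

namespace Pool.Agent.W2helper5.BP

open Pool.Agent.Y282.RB

/-! ### exponential bounds of sums -/

lemma exp_le_inv {t : ℝ} (ht : t < 1) : Real.exp t ≤ 1 / (1 - t) := by
  have h1 : 1 - t ≤ Real.exp (-t) := by
    have := Real.add_one_le_exp (-t); linarith
  have h2 : 0 < 1 - t := by linarith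
  rw [Real.exp_neg] at h1
  rw [le_div_iff₀ h2]
  have h3 := Real.exp_pos t
  calc Real.exp t * (1 - t) ≤ Real.exp t * (Real.exp t)⁻¹ := mul_le_mul_of_nonneg_left h1 h3.le
    _ = 1 := mul_inv_cancel₀ h3.ne'

lemma exp_Hn' (m : ℕ) : Real.exp (Hn (m + 2)) ≤ Real.exp 1 * ((m : ℝ) + 1) := by
  induction m with
  | zero => simp [Hn]
  | succ m ih =>
    have e : Hn (m + 1 + 2) = Hn (m + 2) + 1 / ((m : ℝ) + 2) := by
      unfold Hn
      rw [show m + 1 + 2 = (m + 2) + 1 by ring, sum_Ico_succ_top (by omega)]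
      push_cast
      rfl
    rw [e, Real.exp_add]
    have hm : (0 : ℝ) ≤ m := Nat.cast_nonneg m
    have h1 : Real.exp (1 / ((m : ℝ) + 2)) ≤ ((m : ℝ) + 2) / ((m : ℝ) + 1) := by
      have h2 : (1 : ℝ) / ((m : ℝ) + 2) < 1 := by
        rw [div_lt_one (by linarith)]; linarith
      refine (exp_le_inv h2).trans (le_of_eq ?_)
      have h3 : (1 : ℝ) - 1 / ((m : ℝ) + 2) = ((m : ℝ) + 1) / ((m : ℝ) + 2) := by
        field_simp
        ring
      rw [h3, one_div_div]
    calc Real.exp (Hn (m + 2)) * Real.exp (1 / ((m : ℝ) + 2))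
        ≤ (Real.exp 1 * ((m : ℝ) + 1)) * (((m : ℝ) + 2) / ((m : ℝ) + 1)) :=
          mul_le_mul ih h1 (Real.exp_pos _).le (by positivity)
      _ = Real.exp 1 * (((m + 1 : ℕ) : ℝ) + 1) := by
          push_cast
          field_simp
          ring

lemma exp_Hn {n : ℕ} (hn : 1 ≤ n) : Real.exp (Hn n) ≤ Real.exp 1 * n := by
  rcases Nat.lt_or_ge n 2 with h | h
  · have : n = 1 := by omega
    subst this
    have h1 : Hn 1 = 0 := by simp [Hn]
    rw [h1, Real.exp_zero]
    have := Real.add_one_le_exp (1 : ℝ)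
    push_cast
    linarith
  · obtain ⟨m, rfl⟩ := Nat.exists_eq_add_of_le' h
    refine (exp_Hn' m).trans ?_
    apply mul_le_mul_of_nonneg_left _ (Real.exp_pos _).le
    push_cast
    linarith

/-- `Σ min(α, 1/j)` -/
noncomputable def Gn (α : ℝ) (n : ℕ) : ℝ := ∑ j ∈ Ico 1 n, min α (1 / (j : ℝ))

lemma exp_Gn' {α : ℝ} (hα : 0 ≤ α) (m : ℕ) : Real.exp (Gn α (m + 1) / 2) ≤ 1 + m * α := by
  induction m with
  | zero => simp [Gn]
  | succ m ih =>
    have e : Gn α (m + 1 + 1) / 2 = Gn α (m + 1) / 2 + min α (1 / ((m : ℝ) + 1)) / 2 := by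
      unfold Gn
      rw [sum_Ico_succ_top (by omega)]
      push_cast
      ring
    rw [e, Real.exp_add]
    have hm : (0 : ℝ) ≤ m := Nat.cast_nonneg m
    have hmα : 0 ≤ (m : ℝ) * α := by positivity
    have hb : min α (1 / ((m : ℝ) + 1)) / 2 ≤ α / (1 + ((m : ℝ) + 1) * α) := by
      rw [div_le_div_iff₀ (by norm_num) (by positivity)]
      rcases le_total α (1 / ((m : ℝ) + 1)) with h | h
      · rw [min_eq_left h]
        rw [le_div_iff₀ (by linarith)] at h
        nlinarith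
      · rw [min_eq_right h]
        have h' := h
        rw [div_le_iff₀ (by linarith)] at h'
        have h2 : 1 / ((m : ℝ) + 1) * (1 + ((m : ℝ) + 1) * α) = 1 / ((m : ℝ) + 1) + α := by
          field_simp
        rw [h2]
        linarith
    have hlt : α / (1 + ((m : ℝ) + 1) * α) < 1 := by
      rw [div_lt_one (by positivity)]
      nlinarith
    have h1 : Real.exp (min α (1 / ((m : ℝ) + 1)) / 2) ≤
        (1 + ((m : ℝ) + 1) * α) / (1 + m * α) := by
      calc Real.exp (min α (1 / ((m : ℝ) + 1)) / 2) ≤ Real.exp (α / (1 + ((m : ℝ) + 1) * α)) :=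
            Real.exp_le_exp.2 hb
        _ ≤ 1 / (1 - α / (1 + ((m : ℝ) + 1) * α)) := exp_le_inv hlt
        _ = _ := by
            have h3 : 1 - α / (1 + ((m : ℝ) + 1) * α) = (1 + m * α) / (1 + ((m : ℝ) + 1) * α) := by
              have : (1 + ((m : ℝ) + 1) * α) ≠ 0 := by positivity
              field_simp
              ring
            rw [h3, one_div_div]
    calc Real.exp (Gn α (m + 1) / 2) * Real.exp (min α (1 / ((m : ℝ) + 1)) / 2)
        ≤ (1 + m * α) * ((1 + ((m : ℝ) + 1) * α) / (1 + m * α)) :=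
          mul_le_mul ih h1 (Real.exp_pos _).le (by positivity)
      _ = 1 + ((m + 1 : ℕ) : ℝ) * α := by
          have : (1 + (m : ℝ) * α) ≠ 0 := by positivity
          push_cast
          field_simp

lemma exp_Gn {α : ℝ} (hα : 0 ≤ α) {n : ℕ} (hn : 1 ≤ n) : Real.exp (Gn α n / 2) ≤ 1 + n * α := by
  obtain ⟨m, rfl⟩ := Nat.exists_eq_add_of_le' hn
  refine (exp_Gn' hα m).trans ?_
  push_cast
  nlinarith

lemma Gn_le {α : ℝ} {n : ℕ} (hn : 1 ≤ n) : Gn α n ≤ n := by
  have h : Gn α n ≤ Hn n := by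
    unfold Gn Hn
    exact sum_le_sum fun j _ => min_le_right _ _
  have := Hn_le hn
  linarith

/-- refined upper bound -/
lemma up3 {σ : ℝ} (h0 : 0 < σ) (h1 : σ ≤ 1 / 200) {n : ℕ} (hn : 1 ≤ n) (γ : ℕ → ℝ)
    (hL : Lam σ n γ = 1) (hx : 1 ≤ γ 0) :
    KK σ n * (γ 0 ^ 2 - 1) ≤ 2 * γ 0 * √(TT n γ) * (1 + 2 * σ) +
      2 * γ 0 ^ 2 * Gn (3 * √(TT n γ)) n := by
  have hσ : σ < 1 := by linarith
  rw [ident h0 hσ hn γ hL]
  have hs := Real.sqrt_nonneg (TT n γ)
  have hd := d_one hn γ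
  have hx0 : 0 ≤ γ 0 := by linarith
  apply add_le_add
  · rw [div_le_iff₀ (by linarith)]
    have a : γ 0 * (γ 0 - γ 1) ≤ γ 0 * √(TT n γ) :=
      mul_le_mul_of_nonneg_left ((le_abs_self _).trans hd) hx0
    have b : 0 ≤ σ * (γ 0 - γ 1) ^ 2 := by positivity
    have c : 0 ≤ γ 0 * √(TT n γ) := by positivity
    have d : 1 ≤ (1 + 2 * σ) * (1 - σ) := by nlinarith
    nlinarith [mul_le_mul_of_nonneg_left d c]
  · unfold Gn
    rw [mul_sum]
    apply sum_le_sum
    intro j hj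
    rw [mem_Ico] at hj
    have hk := kk_pos h0 hσ j
    rw [mul_min_of_nonneg _ _ (by positivity), le_min_iff]
    constructor
    · refine (term_up h0 hσ n γ hx0 hj.1 hj.2).trans ?_
      have : γ 0 ≤ γ 0 ^ 2 := by nlinarith
      nlinarith [mul_le_mul_of_nonneg_right this hs]
    · have hkl := kk_le h0 hσ hj.1
      calc kk σ j * (γ 0 ^ 2 - yy σ γ j ^ 2) ≤ kk σ j * γ 0 ^ 2 := by
            apply mul_le_mul_of_nonneg_left _ hk.le
            have := sq_nonneg (yy σ γ j)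
            linarith
        _ ≤ 2 * (1 / (j : ℝ)) * γ 0 ^ 2 := mul_le_mul_of_nonneg_right hkl (by positivity)
        _ = _ := by ring

/-! ### numerical values -/

lemma exp_45 : Real.exp (9 / 2) ≤ 99 := by
  have h1 := Real.exp_one_lt_d9
  have h2 : Real.exp (9 / 2) ^ 2 = Real.exp 1 ^ 9 := by
    rw [← Real.exp_nat_mul, ← Real.exp_nat_mul]
    norm_num
  have h3 : Real.exp 1 ^ 9 ≤ 2.7182818286 ^ 9 := pow_le_pow_left₀ (Real.exp_pos 1).le h1.le 9
  have h4 : (2.7182818286 : ℝ) ^ 9 ≤ 99 ^ 2 := by norm_num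
  have h5 : Real.exp (9 / 2) ^ 2 ≤ 99 ^ 2 := by rw [h2]; exact h3.trans h4
  exact (pow_le_pow_iff_left₀ (Real.exp_pos _).le (by norm_num) (by norm_num)).1 h5

lemma exp_125 : Real.exp (5 / 4) ≤ 396 / 100 := by
  have h1 := Real.exp_one_lt_d9
  have h2 : Real.exp (5 / 4) ^ 4 = Real.exp 1 ^ 5 := by
    rw [← Real.exp_nat_mul, ← Real.exp_nat_mul]
    norm_num
  have h3 : Real.exp 1 ^ 5 ≤ 2.7182818286 ^ 5 := pow_le_pow_left₀ (Real.exp_pos 1).le h1.le 5
  have h4 : (2.7182818286 : ℝ) ^ 5 ≤ (396 / 100) ^ 4 := by norm_num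
  have h5 : Real.exp (5 / 4) ^ 4 ≤ (396 / 100) ^ 4 := by rw [h2]; exact h3.trans h4
  exact (pow_le_pow_iff_left₀ (Real.exp_pos _).le (by norm_num) (by norm_num)).1 h5

lemma exp_16 : Real.exp (8 / 5) ≤ 5 := by
  have h1 := Real.exp_one_lt_d9
  have h2 : Real.exp (8 / 5) ^ 5 = Real.exp 1 ^ 8 := by
    rw [← Real.exp_nat_mul, ← Real.exp_nat_mul]
    norm_num
  have h3 : Real.exp 1 ^ 8 ≤ 2.7182818286 ^ 8 := pow_le_pow_left₀ (Real.exp_pos 1).le h1.le 8
  have h4 : (2.7182818286 : ℝ) ^ 8 ≤ 5 ^ 5 := by norm_num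
  have h5 : Real.exp (8 / 5) ^ 5 ≤ 5 ^ 5 := by rw [h2]; exact h3.trans h4
  exact (pow_le_pow_iff_left₀ (Real.exp_pos _).le (by norm_num) (by norm_num)).1 h5

lemma rpow_le_exp {b r : ℝ} (hb : 0 ≤ b) (hr : 0 ≤ r) : b ^ r ≤ Real.exp (r * (b - 1)) := by
  have h1 : b ≤ Real.exp (b - 1) := by
    have := Real.add_one_le_exp (b - 1); linarith
  calc b ^ r ≤ Real.exp (b - 1) ^ r := Real.rpow_le_rpow hb h1 hr
    _ = Real.exp (r * (b - 1)) := by rw [← Real.exp_mul]; ring_nf

/-! ### the pointwise inequality -/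

set_option maxHeartbeats 2000000 in
theorem core {n : ℕ} (hn : 1 ≤ n) {r σ : ℝ} (hr : 100 * (n : ℝ) ^ 2 ≤ r) (hσ : σ = 1 / (2 * r))
    (γ : ℕ → ℝ) (hL : Lam σ n γ = 1) (hx : 0 ≤ γ 0) (hor : γ 0 ≤ 1 ∨ γ n ^ 2 ≤ γ 0 ^ 2) :
    ph r (γ 0 ^ 2) ≤ (r - 1) * TT n γ := by
  have hn1 : (1 : ℝ) ≤ n := by exact_mod_cast hn
  have hnn : (1 : ℝ) ≤ (n : ℝ) ^ 2 := by nlinarith
  have hr100 : 100 ≤ r := by linarith
  have hr0 : 0 < r := by linarith
  have h0 : 0 < σ := by rw [hσ]; positivity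
  have hσr : 2 * (σ * r) = 1 := by rw [hσ]; field_simp
  have h1 : σ * (200 * (n : ℝ) ^ 2) ≤ 1 := by nlinarith [mul_le_mul_of_nonneg_left hr h0.le]
  have hσ' : σ ≤ 1 / 200 := by nlinarith
  have hK := KK_ge h0 (by linarith : σ < 1) hn
  have hT := TT_nonneg n γ
  obtain ⟨q, hq⟩ : ∃ q, q = √(TT n γ) := ⟨_, rfl⟩
  have hq0 : 0 ≤ q := by rw [hq]; positivity
  have hqT : q ^ 2 = TT n γ := by rw [hq]; exact Real.sq_sqrt hT
  obtain ⟨s, hs⟩ : ∃ s, s = (n : ℝ) * q := ⟨_, rfl⟩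
  have hs0 : 0 ≤ s := by rw [hs]; positivity
  -- the right side
  have hrn : 99 * (n : ℝ) ^ 2 ≤ r - 1 := by linarith
  have hRHS : 99 * s ^ 2 ≤ (r - 1) * TT n γ := by
    rw [← hqT, hs, mul_pow]
    nlinarith [mul_le_mul_of_nonneg_right hrn (sq_nonneg q)]
  obtain ⟨b, hb⟩ : ∃ b, b = γ 0 ^ 2 := ⟨_, rfl⟩
  have hb0 : 0 ≤ b := by rw [hb]; positivity
  obtain ⟨E1, E2⟩ := Pool.Agent.Y282.RB.E0.main
  rcases le_or_gt (γ 0) 1 with hx1 | hx1
  · -- `x ≤ 1`
    have hb1 : b ≤ 1 := by rw [hb]; nlinarith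
    have hl := low1 h0 hσ' hn γ hL hx
    rw [← hq, ← hs, ← hqT] at hl
    have hl2 : KK σ n * (1 - b) ≤ 6 * s + 2 * s ^ 2 := by
      rw [hb]
      have h3 : 6 * γ 0 * s ≤ 6 * s := by nlinarith
      have h4 : 2 * (n : ℝ) ^ 2 * q ^ 2 = 2 * s ^ 2 := by rw [hs]; ring
      linarith
    have hl3 : 1 - b ≤ σ * (6 * s + 2 * s ^ 2) := by
      have h3 : 1 / σ * (1 - b) ≤ 6 * s + 2 * s ^ 2 :=
        (mul_le_mul_of_nonneg_right hK (by linarith)).trans hl2
      have h4 := mul_le_mul_of_nonneg_left h3 h0.le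
      rwa [← mul_assoc, mul_one_div_cancel h0.ne', one_mul] at h4
    rw [← hb]
    rcases le_total s 1 with hs1 | hs1
    · refine ((E1 r b (by linarith) hb0 hb1).1).trans (le_trans ?_ hRHS)
      have h5 : 1 - b ≤ σ * (8 * s) := by
        refine hl3.trans (mul_le_mul_of_nonneg_left ?_ h0.le)
        nlinarith
      have h6 : (1 - b) ^ 2 ≤ (σ * (8 * s)) ^ 2 := pow_le_pow_left₀ (by linarith) h5 2
      have h7 : r * (r - 1) / 2 * (1 - b) ^ 2 ≤ r * (r - 1) / 2 * (σ * (8 * s)) ^ 2 := by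
        apply mul_le_mul_of_nonneg_left h6
        have : 0 ≤ r * (r - 1) := mul_nonneg hr0.le (by linarith)
        linarith
      refine h7.trans ?_
      have h8 : r * (r - 1) / 2 * (σ * (8 * s)) ^ 2 = (2 * (σ * r)) * (σ * (r - 1)) * (16 * s ^ 2) := by
        ring
      rw [h8, hσr]
      have h9 : σ * (r - 1) ≤ 1 / 2 := by nlinarith
      nlinarith [mul_le_mul_of_nonneg_right h9 (by positivity : 0 ≤ 16 * s ^ 2)]
    · have h5 : ph r b ≤ r * (1 - b) := by
        unfold ph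
        have : b ^ r ≤ 1 := Real.rpow_le_one hb0 hb1 hr0.le
        linarith
      refine h5.trans (le_trans ?_ hRHS)
      have h6 := mul_le_mul_of_nonneg_left hl3 hr0.le
      have h7 : r * (σ * (6 * s + 2 * s ^ 2)) = (2 * (σ * r)) * (3 * s + s ^ 2) := by ring
      rw [h7, hσr] at h6
      nlinarith
  · -- `x > 1`
    have hγ : |γ n| ≤ γ 0 := by
      rcases hor with h | h
      · linarith
      · exact abs_le_of_sq_le_sq h hx
    have hb1 : 1 < b := by rw [hb]; nlinarith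
    obtain ⟨hu1, hu2⟩ := umax h0 hn h1 γ hL hx hγ
    rw [← hb] at hu1 hu2
    have hb2 : b ≤ 1.043 := by
      have : 43 / 1000 / (n : ℝ) ≤ 43 / 1000 := by
        rw [div_le_iff₀ (by linarith)]; nlinarith
      norm_num
      linarith
    have hxb : γ 0 ≤ 1.0213 := by
      have h : γ 0 ^ 2 ≤ 1.0213 ^ 2 := by
        rw [← hb]; exact hb2.trans (by norm_num)
      exact (abs_le_of_sq_le_sq' h (by norm_num)).2
    obtain ⟨u, hu⟩ : ∃ u, u = r * (b - 1) := ⟨_, rfl⟩
    have hu0 : 0 ≤ u := by rw [hu]; exact mul_nonneg hr0.le (by linarith)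
    have hbr : b ^ r ≤ Real.exp u := by rw [hu]; exact rpow_le_exp hb0 hr0.le
    have huK : 2 * u ≤ KK σ n * (b - 1) := by
      have h3 : 1 / σ * (b - 1) ≤ KK σ n * (b - 1) := mul_le_mul_of_nonneg_right hK (by linarith)
      have h4 : 1 / σ = 2 * r := by rw [hσ]; field_simp
      rw [h4] at h3
      rw [hu]; linarith
    have hph : ph r b ≤ Real.exp u := by
      unfold ph
      have : 0 ≤ r * (b - 1) := mul_nonneg hr0.le (by linarith)
      linarith
    rw [← hb]
    rcases le_total 1 q with hq1 | hq1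
    · -- `T ≥ 1`
      refine hph.trans ?_
      have h3 : u ≤ 2 * Hn n + 23 / 10 := by
        have h4 := mul_le_mul_of_nonneg_left hu2 hr0.le
        have h5 : r * (2 * σ * (2 * Hn n + 23 / 10)) = (2 * (σ * r)) * (2 * Hn n + 23 / 10) := by ring
        rw [h5, hσr, one_mul] at h4
        rw [hu]; exact h4
      have h4 : Real.exp u ≤ Real.exp (9 / 2) * (n : ℝ) ^ 2 := by
        calc Real.exp u ≤ Real.exp (2 * Hn n + 5 / 2) := Real.exp_le_exp.2 (by linarith)
          _ = Real.exp (Hn n) ^ 2 * Real.exp (5 / 2) := by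
              rw [← Real.exp_nat_mul, ← Real.exp_add]; norm_num
          _ ≤ (Real.exp 1 * n) ^ 2 * Real.exp (5 / 2) := by
              apply mul_le_mul_of_nonneg_right _ (Real.exp_pos _).le
              exact pow_le_pow_left₀ (Real.exp_pos _).le (exp_Hn hn) 2
          _ = Real.exp (9 / 2) * (n : ℝ) ^ 2 := by
              have : Real.exp (9 / 2) = Real.exp 1 ^ 2 * Real.exp (5 / 2) := by
                rw [← Real.exp_nat_mul, ← Real.exp_add]; norm_num
              rw [this]; ring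
      have h5 : (1 : ℝ) ≤ q ^ 2 := by nlinarith
      calc Real.exp u ≤ 99 * (n : ℝ) ^ 2 :=
            h4.trans (mul_le_mul_of_nonneg_right exp_45 (by positivity))
        _ ≤ 99 * s ^ 2 := by
            rw [hs, mul_pow]
            nlinarith
        _ ≤ _ := hRHS
    · rcases le_total s (1 / 2) with hs1 | hs1
      · -- `s ≤ 1/2`
        have hl := up1 h0 hσ' hn γ hL hx
        rw [← hq, ← hs, ← hb] at hl
        have h3 : u ≤ 3.0639 * s := by nlinarith
        have h4 : u ≤ 8 / 5 := by linarith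
        refine ((E2 r b (by linarith) hb1.le)).trans (le_trans ?_ hRHS)
        have h5 : b ^ r ≤ 5 := hbr.trans ((Real.exp_le_exp.2 h4).trans exp_16)
        have h6 : r ^ 2 * (b - 1) ^ 2 = u ^ 2 := by rw [hu]; ring
        have h7 : u ^ 2 ≤ (3.0639 * s) ^ 2 := pow_le_pow_left₀ hu0 h3 2
        have h8 : r * (r - 1) / 2 * b ^ r * (b - 1) ^ 2 ≤ (r ^ 2 * (b - 1) ^ 2) / 2 * 5 := by
          have h9 : 0 ≤ (b - 1) ^ 2 := sq_nonneg _
          have h10 : 0 ≤ b ^ r := Real.rpow_nonneg hb0 r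
          calc r * (r - 1) / 2 * b ^ r * (b - 1) ^ 2 ≤ r ^ 2 / 2 * b ^ r * (b - 1) ^ 2 := by
                apply mul_le_mul_of_nonneg_right _ h9
                apply mul_le_mul_of_nonneg_right _ h10
                nlinarith
            _ ≤ r ^ 2 / 2 * 5 * (b - 1) ^ 2 := by
                apply mul_le_mul_of_nonneg_right _ h9
                exact mul_le_mul_of_nonneg_left h5 (by positivity)
            _ = _ := by ring
        rw [h6] at h8
        nlinarith
      · -- `s ≥ 1/2`, `T ≤ 1`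
        have hl := up3 h0 hσ' hn γ hL hx1.le
        rw [← hq, ← hb] at hl
        obtain ⟨G, hG⟩ : ∃ G, G = Gn (3 * q) n := ⟨_, rfl⟩
        rw [← hG] at hl
        have hGn : G ≤ n := by rw [hG]; exact Gn_le hn
        have hexpG : Real.exp (G / 2) ≤ 1 + 3 * s := by
          rw [hG, hs]
          refine (exp_Gn (by positivity) hn).trans (le_of_eq ?_)
          ring
        have h3 : (b - 1) * G ≤ 0.043 := by
          rcases le_total 0 G with hG0 | hG0
          · calc (b - 1) * G ≤ (43 / 1000 / (n : ℝ)) * n :=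
                  mul_le_mul hu1 hGn hG0 (by positivity)
              _ = 0.043 := by field_simp; norm_num
          · have : (b - 1) * G ≤ 0 := mul_nonpos_of_nonneg_of_nonpos (by linarith) hG0
            norm_num
            linarith
        have h4 : γ 0 * q * (1 + 2 * σ) ≤ 1.032 := by
          have h5 : γ 0 * q ≤ 1.0213 := by nlinarith
          have h6 : 0 ≤ γ 0 * q := by positivity
          nlinarith
        have h5 : u ≤ G + 5 / 4 := by nlinarith
        refine hph.trans (le_trans ?_ hRHS)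
        calc Real.exp u ≤ Real.exp (G + 5 / 4) := Real.exp_le_exp.2 h5
          _ = Real.exp (G / 2) ^ 2 * Real.exp (5 / 4) := by
              rw [← Real.exp_nat_mul, ← Real.exp_add]
              congr 1
              push_cast
              ring
          _ ≤ (1 + 3 * s) ^ 2 * (396 / 100) :=
              mul_le_mul (pow_le_pow_left₀ (Real.exp_pos _).le hexpG 2) exp_125
                (Real.exp_pos _).le (by positivity)
          _ ≤ (5 * s) ^ 2 * (396 / 100) := by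
              apply mul_le_mul_of_nonneg_right _ (by norm_num)
              exact pow_le_pow_left₀ (by positivity) (by linarith) 2
          _ = 99 * s ^ 2 := by ring

/-- **The pointwise inequality for all `n` and all `p ≥ 200 n ^ 2`.** -/
theorem star {n : ℕ} (hn : 1 ≤ n) {p : ℝ} (hp : 200 * (n : ℝ) ^ 2 ≤ p) : Star n p := by
  have hn1 : (1 : ℝ) ≤ n := by exact_mod_cast hn
  have hnn : (1 : ℝ) ≤ (n : ℝ) ^ 2 := by nlinarith
  refine Pool.Agent.Y282.RB.C0.main n p hn (by linarith) fun γ hL hx hor => ?_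
  refine core hn (r := p / 2) (σ := 1 / p) (by linarith) (by ring) γ hL hx hor

end Pool.Agent.W2helper5.BP
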